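import Pool.Agent.Helper54.DT.StmtsS

/-! Coefficients are closed terms with the right values. -/

namespace Pool.Agent.Helper54.DT

open Finset Pool.Agent.Helper54.ETR Pool.Agent.Helper54.Poly

namespace CFEH

/-- closed term with a given value -/
def Cl (x : ℕ → ℝ) (t : Term) (r : ℝ) : Prop := t.deg ∅ = 0 ∧ t.eval x = r

variable {x : ℕ → ℝ}

lemma cl_zero : Cl x oT.zero oR.zero := ⟨rfl, rfl⟩

lemma cl_one : Cl x oT.one oR.one := ⟨rfl, rfl⟩

lemma cl_add {s t : Term} {a b : ℝ} (h1 : Cl x s a) (h2 : Cl x t b) :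
    Cl x (oT.add s t) (oR.add a b) := by
  refine ⟨?_, ?_⟩
  · show max (s.deg ∅) (t.deg ∅) = 0
    rw [h1.1, h2.1]; rfl
  · show s.eval x + t.eval x = a + b
    rw [h1.2, h2.2]

lemma cl_sub {s t : Term} {a b : ℝ} (h1 : Cl x s a) (h2 : Cl x t b) :
    Cl x (oT.sub s t) (oR.sub a b) := by
  refine ⟨?_, ?_⟩
  · show max (s.deg ∅) (t.deg ∅) = 0
    rw [h1.1, h2.1]; rfl
  · show s.eval x - t.eval x = a - b
    rw [h1.2, h2.2]

lemma cl_mul {s t : Term} {a b : ℝ} (h1 : Cl x s a) (h2 : Cl x t b) :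
    Cl x (oT.mul s t) (oR.mul a b) := by
  refine ⟨?_, ?_⟩
  · show s.deg ∅ + t.deg ∅ = 0
    rw [h1.1, h2.1]
  · show s.eval x * t.eval x = a * b
    rw [h1.2, h2.2]

lemma cl_nu : ∀ n : ℕ, Cl x (nuO oT n) (nuO oR n)
  | 0 => cl_zero
  | n + 1 => cl_add (cl_nu n) cl_one

lemma nuR : ∀ n : ℕ, nuO oR n = (n : ℝ)
  | 0 => by
    show (0 : ℝ) = ((0 : ℕ) : ℝ)
    simp
  | n + 1 => by
    show nuO oR n + 1 = ((n + 1 : ℕ) : ℝ)
    rw [nuR n]; push_cast; ring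

lemma cl_subst (g : ℕ → Term) (v : ℕ → ℝ) (hg : ∀ i, Cl x (g i) (v i)) :
    ∀ t : Term, Cl x (subst g t) (t.eval v)
  | Term.zero => cl_zero
  | Term.one => cl_one
  | Term.var i => hg i
  | Term.add s t => cl_add (cl_subst g v hg s) (cl_subst g v hg t)
  | Term.sub s t => cl_sub (cl_subst g v hg s) (cl_subst g v hg t)
  | Term.mul s t => cl_mul (cl_subst g v hg s) (cl_subst g v hg t)

lemma cl_p (l1 l2 : List ℕ) (i : ℕ) : Cl x (pT l1 l2 i) (pv l1 l2 i) := by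
  have h := cl_sub (cl_nu (x := x) (l1.count i)) (cl_nu (x := x) (l2.count i))
  rw [nuR, nuR] at h
  exact h

lemma cl_P (z : Term × Term) (l1 l2 : List ℕ) : Cl x (PPT z l1 l2) (PPR z l1 l2) :=
  cl_sub (cl_subst _ _ (cl_p l1 l2) z.1) (cl_subst _ _ (cl_p l1 l2) z.2)

lemma cl_t3 (z : Term × Term) (i j k : ℕ) : Cl x (t3 oT (PPT z) i j k) (t3 oR (PPR z) i j k) :=
  cl_sub (cl_add (cl_add (cl_add (cl_P z _ _) (cl_P z _ _)) (cl_P z _ _)) (cl_P z _ _))
    (cl_add (cl_add (cl_add (cl_P z _ _) (cl_P z _ _)) (cl_P z _ _)) (cl_P z _ _))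

lemma cl_h2 (z : Term × Term) (i j : ℕ) : Cl x (h2 oT (PPT z) i j) (h2 oR (PPR z) i j) :=
  cl_sub (cl_add (cl_P z _ _) (cl_P z _ _)) (cl_add (cl_P z _ _) (cl_P z _ _))

lemma cl_cf1 (z : Term × Term) (m : ℕ) : Cl x (cf1 oT (PPT z) m) (cf1 oR (PPR z) m) := by
  unfold cf1
  split_ifs
  · exact cl_zero
  · exact cl_P z _ _
  · exact cl_sub (cl_P z _ _) (cl_P z _ _)

lemma cl_cf3 (z : Term × Term) (a b c : ℕ) :
    Cl x (cf3 oT (PPT z) a b c) (cf3 oR (PPR z) a b c) := by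
  unfold cf3
  split_ifs
  · exact cl_zero
  · generalize (([a, b, c].filter (fun i => decide (2 ≤ i))).map (fun i => i - 2)) = l
    match l with
    | [] => exact cl_mul (cl_nu 72) (cl_P z _ _)
    | [i] => exact cl_sub (cl_mul (cl_nu 12) (cl_sub (cl_P z _ _) (cl_P z _ _)))
              (cl_mul (cl_nu 4) (cl_t3 z i i i))
    | [i, j] => exact cl_mul (cl_nu 3) (cl_h2 z i j)
    | i :: j :: k :: _ => exact cl_mul (cl_nu 12) (cl_t3 z i j k)

lemma PP_perm (z : Term × Term) {l1 l1' l2 l2' : List ℕ} (h1 : l1.Perm l1') (h2 : l2.Perm l2') :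
    PPR z l1 l2 = PPR z l1' l2' := by
  have h : pv l1 l2 = pv l1' l2' := by
    funext i
    unfold pv
    rw [h1.count_eq, h2.count_eq]
  unfold PPR
  rw [h]

lemma t3_s1 (z : Term × Term) (i j k : ℕ) : t3 oR (PPR z) i j k = t3 oR (PPR z) j i k := by
  have e1 : PPR z [i, j, k] [] = PPR z [j, i, k] [] := PP_perm z (List.Perm.swap _ _ _) (List.Perm.refl _)
  have e2 : PPR z [i, j] [] = PPR z [j, i] [] := PP_perm z (List.Perm.swap _ _ _) (List.Perm.refl _)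
  show (PPR z [i, j, k] [] + PPR z [i] [] + PPR z [j] [] + PPR z [k] []) -
    (PPR z [i, j] [] + PPR z [i, k] [] + PPR z [j, k] [] + PPR z [] []) =
    (PPR z [j, i, k] [] + PPR z [j] [] + PPR z [i] [] + PPR z [k] []) -
    (PPR z [j, i] [] + PPR z [j, k] [] + PPR z [i, k] [] + PPR z [] [])
  rw [e1, e2]; ring

lemma t3_s2 (z : Term × Term) (i j k : ℕ) : t3 oR (PPR z) i j k = t3 oR (PPR z) i k j := by
  have e1 : PPR z [i, j, k] [] = PPR z [i, k, j] [] :=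
    PP_perm z (List.Perm.cons _ (List.Perm.swap _ _ _)) (List.Perm.refl _)
  have e2 : PPR z [j, k] [] = PPR z [k, j] [] := PP_perm z (List.Perm.swap _ _ _) (List.Perm.refl _)
  show (PPR z [i, j, k] [] + PPR z [i] [] + PPR z [j] [] + PPR z [k] []) -
    (PPR z [i, j] [] + PPR z [i, k] [] + PPR z [j, k] [] + PPR z [] []) =
    (PPR z [i, k, j] [] + PPR z [i] [] + PPR z [k] [] + PPR z [j] []) -
    (PPR z [i, k] [] + PPR z [i, j] [] + PPR z [k, j] [] + PPR z [] [])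
  rw [e1, e2]; ring

lemma h2_s (z : Term × Term) (i j : ℕ) : h2 oR (PPR z) i j = h2 oR (PPR z) j i := by
  have e1 : PPR z [i, j] [] = PPR z [j, i] [] := PP_perm z (List.Perm.swap _ _ _) (List.Perm.refl _)
  have e2 : PPR z [] [i, j] = PPR z [] [j, i] := PP_perm z (List.Perm.refl _) (List.Perm.swap _ _ _)
  show (PPR z [i, j] [] + PPR z [] [i, j]) - (PPR z [i] [j] + PPR z [j] [i]) =
    (PPR z [j, i] [] + PPR z [] [j, i]) - (PPR z [j] [i] + PPR z [i] [j])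
  rw [e1, e2]; ring

lemma cf_s1 (z : Term × Term) (a b c : ℕ) :
    cf3 oR (PPR z) a b c = cf3 oR (PPR z) b a c := by
  have H2 : ∀ i j, h2 oR (PPR z) i j = h2 oR (PPR z) j i := h2_s z
  have H3 : ∀ i j k, t3 oR (PPR z) i j k = t3 oR (PPR z) j i k := t3_s1 z
  rcases a with _ | _ | i <;> rcases b with _ | _ | j <;> rcases c with _ | _ | k <;>
    simp [cf3] <;>
    first | rfl | (rw [H2]) | (rw [H3])

lemma cf_s2 (z : Term × Term) (a b c : ℕ) :
    cf3 oR (PPR z) a b c = cf3 oR (PPR z) a c b := by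
  have H2 : ∀ i j, h2 oR (PPR z) i j = h2 oR (PPR z) j i := h2_s z
  have H3 : ∀ i j k, t3 oR (PPR z) i j k = t3 oR (PPR z) i k j := t3_s2 z
  rcases a with _ | _ | i <;> rcases b with _ | _ | j <;> rcases c with _ | _ | k <;>
    simp [cf3] <;>
    first | rfl | (rw [H2]) | (rw [H3])

end CFEH

open CFEH in
theorem st_CFE : ST_CFE := by
  intro z x
  refine ⟨fun m => cl_cf1 z m, fun a b c => cl_cf3 z a b c, ?_⟩
  refine ⟨cf_s1 z, cf_s2 z, ?_⟩
  intro b c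
  unfold cf3
  rw [if_pos (Or.inl rfl)]
  rfl

end Pool.Agent.Helper54.DT
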