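import Pool.Agent.Helper64.DT.Stmts

/-! Module REV. -/

set_option autoImplicit false

namespace Pool.Agent.Helper64.DT

open Pool.Agent.Helper64.CT
open Pool.Agent.Helper64.HG (Ovl Model Circ IC HellyCircle ChordModel)

section
variable {V : Type}

private theorem rev_self (G : SimpleGraph V) (b : V → V → Bool) (z x : V) :
    rev G b z z x = !(b z x) := by
  unfold rev; rw [if_pos rfl]

private theorem rev_adj {G : SimpleGraph V} (b : V → V → Bool) {z y : V} (hyz : y ≠ z)
    (h : G.Adj y z) : rev G b z y z = !(b y z) := by
  unfold rev; rw [if_neg hyz, if_pos ⟨rfl, h⟩]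

private theorem rev_nadj {G : SimpleGraph V} (b : V → V → Bool) {z y x : V} (hyz : y ≠ z)
    (h : ¬ G.Adj y z) : rev G b z y x = b y x := by
  unfold rev; rw [if_neg hyz, if_neg (fun e => h e.2)]

private theorem rev_ne {G : SimpleGraph V} (b : V → V → Bool) {z y x : V} (hyz : y ≠ z)
    (hxz : x ≠ z) : rev G b z y x = b y x := by
  unfold rev; rw [if_neg hyz, if_neg (fun e => hxz e.1)]

private theorem rev_aux {G : SimpleGraph V} {b : V → V → Bool} (h : NB G b) {x y z w : V}
    (hxy : G.Adj x y) (hyz : G.Adj y z) (hzx : G.Adj z x) (hwx : G.Adj w x) (hwy : G.Adj w y)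
    (hwz : G.Adj w z) (e1 : b x y = false) (e2 : b y z = true) (e3 : b z x = false) :
    ¬ ((!b x w) = b y w ∧ b y w = b z w) := by
  rintro ⟨f1, f2⟩
  have n1 := h.n1 x y hxy
  have n2 := h.n1 y z hyz
  have n3 := h.n1 z x hzx
  have n4 := h.n1 w x hwx
  have n5 := h.n1 w y hwy
  have n6 := h.n1 w z hwz
  have p := h.n5 x z w y hzx.symm hwz.symm hwx hxy.symm hyz hwy.symm
  have q := h.n5 y x w z hxy.symm hwx.symm hwy hyz.symm hzx hwz.symm
  revert n1 n2 n3 n4 n5 n6 p q f1 f2
  rw [e1, e2, e3]
  generalize b x w = a1
  generalize b y w = a2
  generalize b z w = a3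
  generalize b w x = a4
  generalize b w y = a5
  generalize b w z = a6
  generalize b y x = a7
  generalize b z y = a8
  generalize b x z = a9
  revert a1 a2 a3 a4 a5 a6 a7 a8 a9
  decide

end

theorem st_REV : ST_REV := by
  intro V G b z h
  have hfar : ∀ c x : V, x ∈ Far G c → ¬ G.Adj c x := fun c x hx => hx.2
  refine ⟨?_, ?_, ?_, ?_, ?_⟩
  · intro x y hxy
    by_cases hx : x = z
    · subst hx
      rw [rev_self, rev_adj b hxy.ne' hxy.symm]
      have := h.n1 x y hxy
      revert this
      generalize b x y = u
      generalize b y x = v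
      revert u v
      decide
    · by_cases hy : y = z
      · subst hy
        rw [rev_self, rev_adj b hx hxy]
        have := h.n1 x y hxy
        revert this
        generalize b x y = u
        generalize b y x = v
        revert u v
        decide
      · rw [rev_ne b hx hy, rev_ne b hy hx]
        exact h.n1 x y hxy
  · intro c x y hx hy hxy
    have := h.n2 c x y hx hy hxy
    by_cases hc : c = z
    · subst hc
      rw [rev_self, rev_self, this]
    · have key : ∀ u, u ∈ Far G c → rev G b z c u = b c u := by
        intro u hu
        by_cases hu2 : u = z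
        · subst hu2
          exact rev_nadj b hc (hfar c u hu)
        · exact rev_ne b hc hu2
      rw [key x hx, key y hy, this]
  · intro n v w hnv hnw hvw hvw2
    have := h.n3 n v w hnv hnw hvw hvw2
    have hwv2 : ¬ G.Adj w v := fun e => hvw2 e.symm
    by_cases h1 : v = z
    · subst h1
      rw [rev_self, rev_nadj b hvw.symm hwv2, rev_adj b hnv.ne hnv, rev_ne b hnv.ne hvw.symm]
      revert this
      generalize b v w = a1
      generalize b w v = a2
      generalize b n v = a3
      generalize b n w = a4
      revert a1 a2 a3 a4
      decide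
    · by_cases h2 : w = z
      · subst h2
        rw [rev_self, rev_nadj b hvw hvw2, rev_adj b hnw.ne hnw, rev_ne b hnw.ne hvw]
        revert this
        generalize b v w = a1
        generalize b w v = a2
        generalize b n v = a3
        generalize b n w = a4
        revert a1 a2 a3 a4
        decide
      · by_cases h3 : n = z
        · subst h3
          rw [rev_self, rev_self, rev_ne b h1 h2, rev_ne b h2 h1]
          revert this
          generalize b v w = a1
          generalize b w v = a2
          generalize b n v = a3
          generalize b n w = a4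
          revert a1 a2 a3 a4
          decide
        · rw [rev_ne b h1 h2, rev_ne b h2 h1, rev_ne b h3 h1, rev_ne b h3 h2]
          exact this
  · intro n a c d hna hnc hnd hac had hcd hac2 had2 hcd2
    have := h.n4 n a c d hna hnc hnd hac had hcd hac2 had2 hcd2
    have key : ∀ u v w : V, u ≠ v → u ≠ w → ¬ G.Adj u v → ¬ G.Adj u w →
        (rev G b z u v ≠ rev G b z u w ↔ b u v ≠ b u w) := by
      intro u v w huv huw huv2 huw2
      by_cases hu : u = z
      · subst hu
        rw [rev_self, rev_self]
        generalize b u v = a1
        generalize b u w = a2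
        revert a1 a2
        decide
      · have k2 : ∀ x, ¬ G.Adj u x → rev G b z u x = b u x := by
          intro x hx
          by_cases hxz : x = z
          · subst hxz
            exact rev_nadj b hu hx
          · exact rev_ne b hu hxz
        rw [k2 v huv2, k2 w huw2]
    rw [key a c d hac had hac2 had2, key c a d hac.symm hcd (fun e => hac2 e.symm) hcd2,
      key d a c had.symm hcd.symm (fun e => had2 e.symm) (fun e => hcd2 e.symm)]
    exact this
  · intro x y z' w hxy hyz hzx hwx hwy hwz
    by_cases h1 : w = z
    · subst h1
      rw [rev_ne b hwx.ne' hwy.ne', rev_ne b hwy.ne' hwz.ne', rev_ne b hwz.ne' hwx.ne',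
        rev_adj b hwx.ne' hwx.symm, rev_adj b hwy.ne' hwy.symm, rev_adj b hwz.ne' hwz.symm]
      intro e1 e2 e3
      have := h.n5 x y z' w hxy hyz hzx hwx hwy hwz e1 e2 e3
      revert this
      generalize b x w = a1
      generalize b y w = a2
      generalize b z' w = a3
      revert a1 a2 a3
      decide
    · by_cases h2 : x = z
      · subst h2
        rw [rev_self, rev_self, rev_ne b hxy.ne' hzx.ne, rev_adj b hzx.ne hzx,
          rev_ne b hxy.ne' h1, rev_ne b hzx.ne h1]
        intro e1 e2 e3
        exact rev_aux h hxy hyz hzx hwx hwy hwz (by simpa using e1) e2 (by simpa using e3)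
      · by_cases h3 : y = z
        · subst h3
          rw [rev_self, rev_self, rev_adj b h2 hxy, rev_ne b hyz.ne' h2,
            rev_ne b h2 h1, rev_ne b hyz.ne' h1]
          intro e1 e2 e3
          have := rev_aux h hyz hzx hxy hwy hwz hwx (by simpa using e2) e3 (by simpa using e1)
          rintro ⟨g1, g2⟩
          exact this ⟨g2, by rw [← g2, ← g1]⟩
        · by_cases h4 : z' = z
          · subst h4
            rw [rev_self, rev_self, rev_adj b h3 hyz, rev_ne b h2 h3,
              rev_ne b h2 h1, rev_ne b h3 h1]
            intro e1 e2 e3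
            have := rev_aux h hzx hxy hyz hwz hwx hwy (by simpa using e3) e1 (by simpa using e2)
            rintro ⟨g1, g2⟩
            exact this ⟨by rw [g1, g2], g1⟩
          · rw [rev_ne b h2 h3, rev_ne b h3 h4, rev_ne b h4 h2, rev_ne b h2 h1, rev_ne b h3 h1,
              rev_ne b h4 h1]
            exact h.n5 x y z' w hxy hyz hzx hwx hwy hwz

end Pool.Agent.Helper64.DT
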